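import Pool.Agent.Lib.MP_464db4_gt.YT.Defs

/-!
# Kuga fibre varieties over compact hyperbolic curves

The total space is the quotient of `ℍ × ℂ^κ` by the translations `(t,z) ↦ (t, z + t a + b)`, `(a,b)` in a lattice `Λ`, and by maps
`(t,z) ↦ (γ t, A_γ z / (c t + d) + flat translation)` for the elements `γ` of a cocompact Fuchsian group.  The vector `(a,b)` is written as
`v = b + i a ∈ ℂ^κ`.
-/

namespace YT

open Complex Matrix MeasureTheory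
open scoped ContDiff ComplexConjugate ComplexOrder

section kuga

variable {κ : Type} [Fintype κ] [DecidableEq κ]

/-- `t a + b` for `v = b + i a`, `a` and `b` real. -/
noncomputable def per (t : ℂ) (v : κ → ℂ) : κ → ℂ := fun k => t * (((v k).im : ℝ) : ℂ) + (((v k).re : ℝ) : ℂ)

/-- The fibre translation `(t,z) ↦ (t, z + t a + b)`, `v = b + i a`. -/
noncomputable def tr (v : κ → ℂ) (x : Unit ⊕ κ → ℂ) : Unit ⊕ κ → ℂ := x + pt 0 (per (x (Sum.inl ())) v)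

/-- The denominator `c t + d`. -/
noncomputable def kden (γ : Matrix.SpecialLinearGroup (Fin 2) ℝ) (t : ℂ) : ℂ :=
  ((γ 1 0 : ℝ) : ℂ) * t + ((γ 1 1 : ℝ) : ℂ)

/-- The map `(t,z) ↦ (γ t, A z / (c t + d))`. -/
noncomputable def kF0 (γ : Matrix.SpecialLinearGroup (Fin 2) ℝ) (A : Matrix κ κ ℝ) (x : Unit ⊕ κ → ℂ) : Unit ⊕ κ → ℂ :=
  pt (mob γ (bas x)) (fun k => (∑ l, ((A k l : ℝ) : ℂ) * x (Sum.inr l)) / kden γ (x (Sum.inl ())))

/-- The action of `(γ, A)` on the vectors `v = b + i a`: `(a,b) ↦ (A (d a - c b), A (-β a + α b))`, `γ = (α β; c d)`. -/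
noncomputable def rho (γ : Matrix.SpecialLinearGroup (Fin 2) ℝ) (A : Matrix κ κ ℝ) (v : κ → ℂ) : κ → ℂ := fun k =>
  ∑ l, ((A k l : ℝ) : ℂ) * (((γ 0 0 * (v l).re - γ 0 1 * (v l).im : ℝ) : ℂ) + ((γ 1 1 * (v l).im - γ 1 0 * (v l).re : ℝ) : ℂ) * I)

/-- Data of a Kuga fibre variety over `Γ\ℍ` (or a torsor with a flat section): a full lattice `Λ`, real matrices `A_γ` multiplicative in `γ` such that
`Λ` is preserved, and a cocycle `c` modulo `Λ`. -/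
structure KugaData (κ : Type) [Fintype κ] [DecidableEq κ] (Γ : Subgroup (Matrix.SpecialLinearGroup (Fin 2) ℝ)) where
  A : Γ → Matrix κ κ ℝ
  c : Γ → (κ → ℂ)
  Λ : Submodule ℤ (κ → ℂ)
  disc : DiscreteTopology Λ
  span : Submodule.span ℝ (Λ : Set (κ → ℂ)) = ⊤
  pres : ∀ γ : Γ, (fun v => rho (γ : Matrix.SpecialLinearGroup (Fin 2) ℝ) (A γ) v) '' (Λ : Set (κ → ℂ)) = Λ
  A_one : A 1 = 1
  A_mul : ∀ γ δ : Γ, A (γ * δ) = A γ * A δ
  c_mul : ∀ γ δ : Γ, c (γ * δ) - (c γ + rho (γ : Matrix.SpecialLinearGroup (Fin 2) ℝ) (A γ) (c δ)) ∈ Λ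

variable {Γ : Subgroup (Matrix.SpecialLinearGroup (Fin 2) ℝ)}

/-- The map `(t,z) ↦ (γ t, A_γ z / (c t + d) + γt a + b)`, `c_γ = b + i a`. -/
noncomputable def KugaData.F (T : KugaData κ Γ) (γ : Γ) (x : Unit ⊕ κ → ℂ) : Unit ⊕ κ → ℂ :=
  tr (T.c γ) (kF0 (γ : Matrix.SpecialLinearGroup (Fin 2) ℝ) (T.A γ) x)

/-- The translations of the lattice. -/
def KugaData.trans (T : KugaData κ Γ) : Set ((Unit ⊕ κ → ℂ) → (Unit ⊕ κ → ℂ)) := {F | ∃ v ∈ T.Λ, F = tr v}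

/-- The maps defining the total space. -/
def KugaData.total (T : KugaData κ Γ) : Set ((Unit ⊕ κ → ℂ) → (Unit ⊕ κ → ℂ)) := Set.range T.F ∪ T.trans

end kuga

end YT
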