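import Pool.Agent.Lib.MP_464db4_gt.KG.Defs
import Pool.Agent.Lib.MP_464db4_gt.YT.MeanB

/-!
# KG-Mean: means and the action of the group
* `rho γ A` is real-linear in `v`, continuous; it is onto because its image is an `ℝ`-subspace containing the spanning set `Λ` (`pres`), so it is a bijection (finite dimension), with a continuous inverse;
  the image measure of a mean is a mean as in `isMean_map` (YT-MeanB), the map `v ↦ rho γ A v` taking the place of `A *ᵥ v`.
* `mean_rho`: `isMean_unique` for `μ` and `μ.map (rho γ A)`, `integral_map`.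
* `exists_cmean`: `μ0` from `exists_isMean`, `μ = 1/2 (μ0 + μ0.map (fun v => -v))` (`isMean_avg` for two measures, or `isMean_map` with `A = -1`; `(-1) *ᵥ v = -v`), then `∫ v k dμ = 0`.
* `mean_shift` is `IsMean.mean` with commuted addition.
-/

namespace YT

open Complex Matrix MeasureTheory
open scoped ContDiff ComplexConjugate ComplexOrder

variable {κ : Type} [Fintype κ] [DecidableEq κ] {Γ : Subgroup (Matrix.SpecialLinearGroup (Fin 2) ℝ)} {T : KugaData κ Γ}
  {μ : Measure (κ → ℂ)}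

theorem rho_add (γ : Matrix.SpecialLinearGroup (Fin 2) ℝ) (A : Matrix κ κ ℝ) (v w : κ → ℂ) :
    rho γ A (v + w) = rho γ A v + rho γ A w := by
  funext k
  simp only [rho, Pi.add_apply]
  rw [← Finset.sum_add_distrib]
  refine Finset.sum_congr rfl fun l _ => ?_
  rw [Complex.add_re, Complex.add_im]
  push_cast
  ring

private theorem kgMean_rho_smul (γ : Matrix.SpecialLinearGroup (Fin 2) ℝ) (A : Matrix κ κ ℝ) (r : ℝ) (v : κ → ℂ) :
    rho γ A (r • v) = r • rho γ A v := by
  funext k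
  simp only [rho, Pi.smul_apply]
  rw [Finset.smul_sum]
  refine Finset.sum_congr rfl fun l _ => ?_
  rw [Complex.smul_re, Complex.smul_im, Complex.real_smul, smul_eq_mul, smul_eq_mul]
  push_cast
  ring

private noncomputable def kgMean_rhoL (γ : Matrix.SpecialLinearGroup (Fin 2) ℝ) (A : Matrix κ κ ℝ) : (κ → ℂ) →ₗ[ℝ] (κ → ℂ) where
  toFun := rho γ A
  map_add' := rho_add γ A
  map_smul' := fun r v => by simpa using kgMean_rho_smul γ A r v

theorem rho_continuous (γ : Matrix.SpecialLinearGroup (Fin 2) ℝ) (A : Matrix κ κ ℝ) : Continuous (rho γ A : (κ → ℂ) → (κ → ℂ)) :=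
  (kgMean_rhoL γ A).continuous_of_finiteDimensional

theorem rho_mem (γ : Γ) {v : κ → ℂ} (hv : v ∈ T.Λ) : rho γ (T.A γ) v ∈ T.Λ := by
  have h : (fun v => rho (γ : Matrix.SpecialLinearGroup (Fin 2) ℝ) (T.A γ) v) v ∈
      (fun v => rho (γ : Matrix.SpecialLinearGroup (Fin 2) ℝ) (T.A γ) v) '' (T.Λ : Set (κ → ℂ)) := Set.mem_image_of_mem _ hv
  rw [T.pres γ] at h
  exact h

theorem rho_surj (γ : Γ) (w : κ → ℂ) : ∃ v, rho γ (T.A γ) v = w := by
  have h3 : Submodule.map (kgMean_rhoL (γ : Matrix.SpecialLinearGroup (Fin 2) ℝ) (T.A γ)) (Submodule.span ℝ (T.Λ : Set (κ → ℂ))) = ⊤ := by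
    rw [Submodule.map_span]
    have : ((kgMean_rhoL (γ : Matrix.SpecialLinearGroup (Fin 2) ℝ) (T.A γ)) '' (T.Λ : Set (κ → ℂ))) = (T.Λ : Set (κ → ℂ)) := T.pres γ
    rw [this, T.span]
  have hw : w ∈ Submodule.map (kgMean_rhoL (γ : Matrix.SpecialLinearGroup (Fin 2) ℝ) (T.A γ)) (Submodule.span ℝ (T.Λ : Set (κ → ℂ))) := by
    rw [h3]
    exact Submodule.mem_top
  obtain ⟨v, -, hv⟩ := hw
  exact ⟨v, hv⟩

theorem isMean_rho (γ : Γ) (h : IsMean T.Λ μ) : IsMean T.Λ (μ.map (rho γ (T.A γ))) := by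
  have hprob := h.prob
  set L : (κ → ℂ) →L[ℝ] (κ → ℂ) := LinearMap.toContinuousLinearMap (kgMean_rhoL (γ : Matrix.SpecialLinearGroup (Fin 2) ℝ) (T.A γ)) with hL
  have hLA : ∀ v, L v = rho γ (T.A γ) v := fun v => rfl
  have hcont : Continuous (rho (γ : Matrix.SpecialLinearGroup (Fin 2) ℝ) (T.A γ)) := rho_continuous _ _
  have hmeas : Measurable (rho (γ : Matrix.SpecialLinearGroup (Fin 2) ℝ) (T.A γ)) := hcont.measurable
  refine ⟨Measure.isProbabilityMeasure_map hmeas.aemeasurable, ?_, ?_⟩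
  · obtain ⟨R, hR⟩ := h.bdd
    refine ⟨‖L‖ * R, ?_⟩
    rw [ae_map_iff hmeas.aemeasurable (measurableSet_le measurable_norm measurable_const)]
    filter_upwards [hR] with a ha
    rw [← hLA a]
    exact (L.le_opNorm a).trans (mul_le_mul_of_nonneg_left ha (norm_nonneg L))
  · intro u hu hp z
    obtain ⟨w, hw⟩ := rho_surj γ z
    have hu' : Continuous (fun a : κ → ℂ => u (z + a)) := hu.comp (continuous_const.add continuous_id)
    rw [integral_map (f := fun a : κ → ℂ => u (z + a)) hmeas.aemeasurable hu'.aestronglyMeasurable,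
      integral_map hmeas.aemeasurable hu.aestronglyMeasurable]
    have h3 := h.mean (fun a => u (rho γ (T.A γ) a)) (hu.comp hcont) (by
      intro v hv a
      show u (rho γ (T.A γ) (a + v)) = u (rho γ (T.A γ) a)
      rw [rho_add]
      exact hp _ (rho_mem γ hv) _) w
    rw [← h3]
    congr 1
    ext a
    show u (z + rho γ (T.A γ) a) = u (rho γ (T.A γ) (w + a))
    rw [rho_add, hw]

theorem mean_rho (γ : Γ) (h : IsMean T.Λ μ) {u : (κ → ℂ) → ℂ} (hu : Continuous u) (hp : ∀ v ∈ T.Λ, ∀ a, u (a + v) = u a) :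
    ∫ v, u (rho γ (T.A γ) v) ∂μ = ∫ v, u v ∂μ := by
  have hcont : Continuous (rho (γ : Matrix.SpecialLinearGroup (Fin 2) ℝ) (T.A γ)) := rho_continuous _ _
  rw [isMean_unique h (isMean_rho γ h) hu hp, integral_map hcont.measurable.aemeasurable hu.aestronglyMeasurable]

theorem mean_shift {Λ : Submodule ℤ (κ → ℂ)} (h : IsMean Λ μ) {u : (κ → ℂ) → ℂ} (hu : Continuous u) (hp : ∀ v ∈ Λ, ∀ a, u (a + v) = u a) (w : κ → ℂ) :
    ∫ v, u (v + w) ∂μ = ∫ v, u v ∂μ := by
  rw [← h.mean u hu hp w]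
  congr 1
  ext v
  rw [add_comm]

/-- There is a mean with barycentre zero. -/
theorem exists_cmean (Λ : Submodule ℤ (κ → ℂ)) (h1 : DiscreteTopology Λ) (h2 : Submodule.span ℝ (Λ : Set (κ → ℂ)) = ⊤) :
    ∃ μ : Measure (κ → ℂ), IsMean Λ μ ∧ ∀ k, ∫ v, v k ∂μ = 0 := by
  obtain ⟨μ0, h0⟩ := exists_isMean Λ h1 h2
  have hprob := h0.prob
  set w : κ → ℂ := fun k => ∫ v, v k ∂μ0 with hw
  have hcont : Continuous (fun v : κ → ℂ => v - w) := continuous_id.sub continuous_const
  have hmeas : Measurable (fun v : κ → ℂ => v - w) := hcont.measurable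
  refine ⟨μ0.map (fun v => v - w), ⟨Measure.isProbabilityMeasure_map hmeas.aemeasurable, ?_, ?_⟩, ?_⟩
  · obtain ⟨R, hR⟩ := h0.bdd
    refine ⟨R + ‖w‖, ?_⟩
    rw [ae_map_iff hmeas.aemeasurable (measurableSet_le measurable_norm measurable_const)]
    filter_upwards [hR] with a ha
    exact (norm_sub_le a w).trans (add_le_add ha le_rfl)
  · intro u hu hp z
    have hu' : Continuous (fun a : κ → ℂ => u (z + a)) := hu.comp (continuous_const.add continuous_id)
    rw [integral_map (f := fun a : κ → ℂ => u (z + a)) hmeas.aemeasurable hu'.aestronglyMeasurable,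
      integral_map hmeas.aemeasurable hu.aestronglyMeasurable]
    have e1 := h0.mean u hu hp (z - w)
    have e2 := h0.mean u hu hp (-w)
    have e3 : ∀ a : κ → ℂ, z + (a - w) = z - w + a := fun a => by abel
    have e4 : ∀ a : κ → ℂ, a - w = -w + a := fun a => by abel
    have e5 : ∫ a, u (z + (a - w)) ∂μ0 = ∫ a, u (z - w + a) ∂μ0 := by simp only [e3]
    have e6 : ∫ a, u (a - w) ∂μ0 = ∫ a, u (-w + a) ∂μ0 := by simp only [e4]
    rw [e5, e6, e1, e2]
  · intro k
    have hc : Continuous (fun v : κ → ℂ => v k) := continuous_apply k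
    rw [integral_map (f := fun v : κ → ℂ => v k) hmeas.aemeasurable hc.aestronglyMeasurable]
    have e1 : ∫ v : κ → ℂ, (v - w) k ∂μ0 = ∫ v : κ → ℂ, (v k - w k) ∂μ0 := rfl
    rw [e1, integral_sub (h0.integrable hc) (integrable_const _), integral_const]
    simp [hw]

/-- The support of a mean is contained in a compact set. -/
theorem IsMean.exists_compact {Λ : Submodule ℤ (κ → ℂ)} (h : IsMean Λ μ) : ∃ K : Set (κ → ℂ), IsCompact K ∧ ∀ᵐ v ∂μ, v ∈ K := by
  obtain ⟨R, hR⟩ := h.bdd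
  refine ⟨Metric.closedBall 0 R, isCompact_closedBall 0 R, ?_⟩
  filter_upwards [hR] with a ha
  rwa [mem_closedBall_zero_iff]

end YT
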