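import Pool.Agent.Lib.MP_464db4_gt.YT.WirtB
import Pool.Agent.Lib.MP_464db4_gt.YT.Red

/-!
# KG-Nat: naturality of primitives
`F` holomorphic on the open set `U`, `F(U) ⊆ U`, `J = jac F`: `(F^*e)_i = ∑ k, e (F x) k * J k i`.
* `dz i (F^*e)_j = ∑ k, (∑ l, dz l e_k (F x) * J l i) * J k j + ∑ k, e_k (F x) * dz i (J k j)`; the first term is symmetric by `sym`, the second because `dz i (jac F · k j) = dz i (dz j F_k) = dz j (dz i F_k)` (`dz_dz_comm`).
* `dzbar j (F^*e)_i = ∑ k, (∑ l, dzbar l e_k (F x) * conj (J l j)) * J k i` (`dzbar_comp`, `jac_hol`, `dzbar_hol`), `dz i (conj (F^*e)_j) = ∑ k, (∑ l, dz l (conj e_k) (F x) * J l i) * conj (J k j)`; so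
  `-I * (dz i (conj (F^*e)_j) - dzbar j (F^*e)_i) = ∑ l k, J l i * (-I * (dz l (conj e_k) - dzbar k e_l) (F x)) * conj (J k j)`, which is the entry of `Jᵀ (g' - g)(F x) J̄`.
-/

namespace YT

open Complex Matrix MeasureTheory
open scoped ContDiff ComplexConjugate ComplexOrder

variable {ι : Type} [Fintype ι] [DecidableEq ι] {U : Set (ι → ℂ)} {S : Set ((ι → ℂ) → (ι → ℂ))}
  {g g' : (ι → ℂ) → Matrix ι ι ℂ} {e e' : (ι → ℂ) → (ι → ℂ)}

/-- the Wirtinger derivative of a component of the pulled back form -/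
private theorem KGNat_dz (hU : IsOpen U) {F : (ι → ℂ) → (ι → ℂ)} (hF : DifferentiableOn ℂ F U) (hFU : ∀ x ∈ U, F x ∈ U)
    (hs : ∀ i, ContDiffOn ℝ ∞ (fun x => e x i) U) {x : ι → ℂ} (hx : x ∈ U) (i j : ι) :
    dz i (fun y => ∑ k, e (F y) k * jac F y k j) x =
      ∑ k, ((∑ l, dz l (fun w => e w k) (F x) * jac F x l i) * jac F x k j + e (F x) k * dz i (fun y => jac F y k j) x) := by
  have hFs : ContDiffOn ℝ ∞ F U := hol_contDiffOn hU hF
  have hFx : DifferentiableAt ℂ F x := (hF x hx).differentiableAt (hU.mem_nhds hx)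
  have hFU' : F x ∈ U := hFU x hx
  have hd1 : ∀ k, DifferentiableAt ℝ (fun w => e w k) (F x) := fun k =>
    ((hs k).contDiffAt (hU.mem_nhds hFU')).differentiableAt (by simp)
  have hd2 : ∀ k, DifferentiableAt ℝ (fun y => e (F y) k) x := fun k =>
    (((hs k).comp hFs hFU).contDiffAt (hU.mem_nhds hx)).differentiableAt (by simp)
  have hd3 : ∀ k, DifferentiableAt ℝ (fun y => jac F y k j) x := fun k =>
    (((jac_hol hU hF k j) x hx).differentiableAt (hU.mem_nhds hx)).restrictScalars ℝ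
  rw [dz_sum Finset.univ (fun k y => e (F y) k * jac F y k j) i (fun k _ => (hd2 k).mul (hd3 k))]
  refine Finset.sum_congr rfl fun k _ => ?_
  rw [dz_mul i (hd2 k) (hd3 k), dz_comp hFx (hd1 k) i]

private theorem KGNat_dzbar (hU : IsOpen U) {F : (ι → ℂ) → (ι → ℂ)} (hF : DifferentiableOn ℂ F U) (hFU : ∀ x ∈ U, F x ∈ U)
    (hs : ∀ i, ContDiffOn ℝ ∞ (fun x => e x i) U) {x : ι → ℂ} (hx : x ∈ U) (i j : ι) :
    dzbar i (fun y => ∑ k, e (F y) k * jac F y k j) x =
      ∑ k, (∑ l, dzbar l (fun w => e w k) (F x) * conj (jac F x l i)) * jac F x k j := by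
  have hFs : ContDiffOn ℝ ∞ F U := hol_contDiffOn hU hF
  have hFx : DifferentiableAt ℂ F x := (hF x hx).differentiableAt (hU.mem_nhds hx)
  have hFU' : F x ∈ U := hFU x hx
  have hd1 : ∀ k, DifferentiableAt ℝ (fun w => e w k) (F x) := fun k =>
    ((hs k).contDiffAt (hU.mem_nhds hFU')).differentiableAt (by simp)
  have hd2 : ∀ k, DifferentiableAt ℝ (fun y => e (F y) k) x := fun k =>
    (((hs k).comp hFs hFU).contDiffAt (hU.mem_nhds hx)).differentiableAt (by simp)
  have hd4 : ∀ k, DifferentiableAt ℂ (fun y => jac F y k j) x := fun k =>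
    ((jac_hol hU hF k j) x hx).differentiableAt (hU.mem_nhds hx)
  have hd3 : ∀ k, DifferentiableAt ℝ (fun y => jac F y k j) x := fun k => (hd4 k).restrictScalars ℝ
  rw [dzbar_sum Finset.univ (fun k y => e (F y) k * jac F y k j) i (fun k _ => (hd2 k).mul (hd3 k))]
  refine Finset.sum_congr rfl fun k _ => ?_
  rw [dzbar_mul i (hd2 k) (hd3 k), dzbar_comp hFx (hd1 k) i, dzbar_hol i (hd4 k), mul_zero, add_zero]

theorem IsPrimitive.comp (hU : IsOpen U) {F : (ι → ℂ) → (ι → ℂ)} (hF : DifferentiableOn ℂ F U) (hFU : ∀ x ∈ U, F x ∈ U)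
    (h : IsPrimitive U S g g' e) :
    IsPrimitive U ∅ (fun x => (jac F x)ᵀ * g (F x) * mconj (jac F x)) (fun x => (jac F x)ᵀ * g' (F x) * mconj (jac F x))
      (fun x i => ∑ k, e (F x) k * jac F x k i) := by
  have hFs : ContDiffOn ℝ ∞ F U := hol_contDiffOn hU hF
  have hFk : ∀ k, ContDiffOn ℝ ∞ (fun y => F y k) U := fun k => contDiffOn_pi.1 hFs k
  have hJs : ∀ k i, ContDiffOn ℝ ∞ (fun y => jac F y k i) U := fun k i => dz_contDiffOn hU (hFk k) i
  refine ⟨fun i => ?_, fun G hG => absurd hG (Set.notMem_empty _), fun x hx i j => ?_, fun x hx i j => ?_⟩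
  · exact ContDiffOn.sum fun k _ => ((h.smooth k).comp hFs hFU).mul (hJs k i)
  · have h1 := KGNat_dz (e := e) hU hF hFU h.smooth hx i j
    have h2 := KGNat_dz (e := e) hU hF hFU h.smooth hx j i
    refine h1.trans (Eq.trans ?_ h2.symm)
    rw [Finset.sum_add_distrib, Finset.sum_add_distrib]
    congr 1
    · simp only [Finset.sum_mul]
      rw [Finset.sum_comm]
      refine Finset.sum_congr rfl fun l _ => Finset.sum_congr rfl fun k _ => ?_
      rw [h.sym (F x) (hFU x hx) l k]
      ring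
    · refine Finset.sum_congr rfl fun k _ => ?_
      congr 1
      exact dz_dz_comm hU (hFk k) hx i j
  · have h1 := KGNat_dzbar (e := e) hU hF hFU h.smooth hx i j
    have h2 := KGNat_dzbar (e := e) hU hF hFU h.smooth hx j i
    have h3 : dz i (fun y => conj (∑ k, e (F y) k * jac F y k j)) x =
        ∑ k, (∑ l, dz l (fun w => conj (e w k)) (F x) * jac F x l i) * conj (jac F x k j) := by
      rw [dz_conj, h1, map_sum]
      refine Finset.sum_congr rfl fun k _ => ?_
      rw [map_mul, map_sum]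
      congr 1
      refine Finset.sum_congr rfl fun l _ => ?_
      rw [map_mul, Complex.conj_conj, dz_conj]
    have h4 : ∀ G : (ι → ℂ) → Matrix ι ι ℂ, ((jac F x)ᵀ * G (F x) * mconj (jac F x)) i j =
        ∑ k, (∑ l, jac F x l i * G (F x) l k) * conj (jac F x k j) := by
      intro G
      simp only [mul_apply, transpose_apply, mconj, map_apply]
    show ((jac F x)ᵀ * g' (F x) * mconj (jac F x)) i j - ((jac F x)ᵀ * g (F x) * mconj (jac F x)) i j =
      -I * (dz i (fun y => conj (∑ k, e (F y) k * jac F y k j)) x - dzbar j (fun y => ∑ k, e (F y) k * jac F y k i) x)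
    rw [h4, h4, h3, h2]
    have h5 : (∑ k, (∑ l, dzbar l (fun w => e w k) (F x) * conj (jac F x l j)) * jac F x k i) =
        ∑ k, (∑ l, dzbar k (fun w => e w l) (F x) * jac F x l i) * conj (jac F x k j) := by
      simp only [Finset.sum_mul]
      rw [Finset.sum_comm]
      refine Finset.sum_congr rfl fun l _ => Finset.sum_congr rfl fun k _ => ?_
      ring
    rw [h5, ← Finset.sum_sub_distrib, ← Finset.sum_sub_distrib, Finset.mul_sum]
    refine Finset.sum_congr rfl fun k _ => ?_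
    rw [← sub_mul, ← sub_mul, ← Finset.sum_sub_distrib, ← Finset.sum_sub_distrib, ← mul_assoc, Finset.mul_sum]
    congr 1
    refine Finset.sum_congr rfl fun l _ => ?_
    have h6 := h.eq (F x) (hFU x hx) l k
    linear_combination (jac F x l i) * h6

/-- Two primitives of the same difference differ by a closed form. -/
theorem IsPrimitive.sub (hU : IsOpen U) (h : IsPrimitive U S g g' e) (h' : IsPrimitive U S g g' e') :
    IsPrimitive U S (fun _ => 0) (fun _ => 0) (fun x i => e' x i - e x i) := by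
  have hd : ∀ x ∈ U, ∀ i, DifferentiableAt ℝ (fun y => e y i) x := fun x hx i =>
    ((h.smooth i).contDiffAt (hU.mem_nhds hx)).differentiableAt (by simp)
  have hd' : ∀ x ∈ U, ∀ i, DifferentiableAt ℝ (fun y => e' y i) x := fun x hx i =>
    ((h'.smooth i).contDiffAt (hU.mem_nhds hx)).differentiableAt (by simp)
  have hc : ∀ x ∈ U, ∀ i, DifferentiableAt ℝ (fun y => conj (e y i)) x := fun x hx i =>
    ((conj_contDiffOn (h.smooth i)).contDiffAt (hU.mem_nhds hx)).differentiableAt (by simp)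
  have hc' : ∀ x ∈ U, ∀ i, DifferentiableAt ℝ (fun y => conj (e' y i)) x := fun x hx i =>
    ((conj_contDiffOn (h'.smooth i)).contDiffAt (hU.mem_nhds hx)).differentiableAt (by simp)
  refine ⟨fun i => (h'.smooth i).sub (h.smooth i), fun F hF x hx i => ?_, fun x hx i j => ?_, fun x hx i j => ?_⟩
  · have h1 := h.inv F hF x hx i
    have h2 := h'.inv F hF x hx i
    simp only [sub_mul, Finset.sum_sub_distrib]
    rw [h1, h2]
  · show dz i (fun y => e' y j - e y j) x = dz j (fun y => e' y i - e y i) x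
    rw [dz_sub i (hd' x hx j) (hd x hx j), dz_sub j (hd' x hx i) (hd x hx i), h.sym x hx i j, h'.sym x hx i j]
  · have h1 := h.eq x hx i j
    have h2 := h'.eq x hx i j
    show (0 : Matrix ι ι ℂ) i j - (0 : Matrix ι ι ℂ) i j =
      -I * (dz i (fun y => conj (e' y j - e y j)) x - dzbar j (fun y => e' y i - e y i) x)
    have h3 : (fun y => conj (e' y j - e y j)) = fun y => conj (e' y j) - conj (e y j) := by
      funext y
      exact map_sub _ _ _
    rw [h3, dz_sub i (hc' x hx j) (hc x hx j), dzbar_sub j (hd' x hx i) (hd x hx i), sub_self]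
    linear_combination h2 - h1

theorem IsPrimitive.congr (hU : IsOpen U) {h h' : (ι → ℂ) → Matrix ι ι ℂ} (hh : ∀ x ∈ U, h x = g x) (hh' : ∀ x ∈ U, h' x = g' x)
    (H : IsPrimitive U S g g' e) : IsPrimitive U S h h' e := by
  refine ⟨H.smooth, H.inv, H.sym, fun x hx i j => ?_⟩
  rw [hh x hx, hh' x hx]
  exact H.eq x hx i j

/-- The differential of a real function may be added to a primitive. -/
theorem IsPrimitive.add_dz (hU : IsOpen U) {f : (ι → ℂ) → ℝ} (hf : ContDiffOn ℝ ∞ (fun x => ((f x : ℝ) : ℂ)) U)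
    (h : IsPrimitive U ∅ g g' e) : IsPrimitive U ∅ g g' (fun x i => e x i + dz i (fun y => ((f y : ℝ) : ℂ)) x) := by
  have hd : ∀ x ∈ U, ∀ i, DifferentiableAt ℝ (fun y => e y i) x := fun x hx i =>
    ((h.smooth i).contDiffAt (hU.mem_nhds hx)).differentiableAt (by simp)
  have hc : ∀ x ∈ U, ∀ i, DifferentiableAt ℝ (fun y => conj (e y i)) x := fun x hx i =>
    ((conj_contDiffOn (h.smooth i)).contDiffAt (hU.mem_nhds hx)).differentiableAt (by simp)
  have hz : ∀ x ∈ U, ∀ i, DifferentiableAt ℝ (fun y => dz i (fun w => ((f w : ℝ) : ℂ)) y) x := fun x hx i =>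
    ((dz_contDiffOn hU hf i).contDiffAt (hU.mem_nhds hx)).differentiableAt (by simp)
  have hb : ∀ x ∈ U, ∀ i, DifferentiableAt ℝ (fun y => dzbar i (fun w => ((f w : ℝ) : ℂ)) y) x := fun x hx i =>
    ((dzbar_contDiffOn hU hf i).contDiffAt (hU.mem_nhds hx)).differentiableAt (by simp)
  refine ⟨fun i => (h.smooth i).add (dz_contDiffOn hU hf i), fun G hG => absurd hG (Set.notMem_empty _),
    fun x hx i j => ?_, fun x hx i j => ?_⟩
  · show dz i (fun y => e y j + dz j (fun w => ((f w : ℝ) : ℂ)) y) x = dz j (fun y => e y i + dz i (fun w => ((f w : ℝ) : ℂ)) y) x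
    rw [dz_add i (hd x hx j) (hz x hx j), dz_add j (hd x hx i) (hz x hx i), h.sym x hx i j, dz_dz_comm hU hf hx i j]
  · show g' x i j - g x i j = -I * (dz i (fun y => conj (e y j + dz j (fun w => ((f w : ℝ) : ℂ)) y)) x -
      dzbar j (fun y => e y i + dz i (fun w => ((f w : ℝ) : ℂ)) y) x)
    have h3 : (fun y => conj (e y j + dz j (fun w => ((f w : ℝ) : ℂ)) y)) =
        fun y => conj (e y j) + dzbar j (fun w => ((f w : ℝ) : ℂ)) y := by
      funext y
      rw [map_add, ← dzbar_conj]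
      simp only [Complex.conj_ofReal]
    rw [h3, dz_add i (hc x hx j) (hb x hx j), dzbar_add j (hd x hx i) (hz x hx i), dz_dzbar_comm hU hf hx i j, h.eq x hx i j]
    ring

end YT
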