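import Pool.Agent.Lib.MP_464db4_gt.YT.ParB

/-!
# KG-Par: parametric integrals
Apply `contDiffOn_intTrans`, `hasFDerivAt_intTrans`, `integrable_intTrans` (YT-ParA) with `E = (ι → ℂ) × P`, `U' = U ×ˢ univ`, `C = {0} ×ˢ K`, `v p = (0, p)`, `w = 1`, `f = F` (complex valued):
`G y = ∫ F (y + (0,p)) dν(p)` is smooth on `U'`, and `∫ F (x, p) dν(p) = G (x, 0)`.  The derivative of `x ↦ G (x, 0)` is `fderiv G (x,0) ∘ (v ↦ (v,0))` and
`fderiv ℝ F (x,p) (v,0) = fderiv ℝ (fun y => F (y,p)) x v` (chain rule, `F` is differentiable at `(x,p)`, an interior point of `U'`).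
-/

namespace YT

open Complex Matrix MeasureTheory
open scoped ContDiff ComplexConjugate ComplexOrder

variable {ι : Type} [Fintype ι] [DecidableEq ι] {P : Type} [NormedAddCommGroup P] [NormedSpace ℝ P] [FiniteDimensional ℝ P]
  [MeasurableSpace P] [BorelSpace P] {ν : Measure P} [IsFiniteMeasure ν] {U : Set (ι → ℂ)} {K : Set P} {F : (ι → ℂ) × P → ℂ}

omit [DecidableEq ι] [FiniteDimensional ℝ P] [MeasurableSpace P] [BorelSpace P] in
private theorem kgpar_open (hU : IsOpen U) : IsOpen (U ×ˢ (Set.univ : Set P)) := hU.prod isOpen_univ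

omit [Fintype ι] [DecidableEq ι] [NormedSpace ℝ P] [FiniteDimensional ℝ P] [MeasurableSpace P] [BorelSpace P] in
private theorem kgpar_comp (hK : IsCompact K) : IsCompact (({0} : Set (ι → ℂ)) ×ˢ K) := isCompact_singleton.prod hK

omit [Fintype ι] [DecidableEq ι] [NormedSpace ℝ P] [FiniteDimensional ℝ P] [MeasurableSpace P] [BorelSpace P] in
private theorem kgpar_add : ∀ x ∈ U ×ˢ (Set.univ : Set P), ∀ c ∈ ({0} : Set (ι → ℂ)) ×ˢ K, x + c ∈ U ×ˢ (Set.univ : Set P) := by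
  rintro ⟨x, p⟩ ⟨hx, -⟩ ⟨c, d⟩ ⟨hc, -⟩
  have hc' : c = 0 := hc
  subst hc'
  exact ⟨by simpa using hx, Set.mem_univ _⟩

omit [DecidableEq ι] [IsFiniteMeasure ν] in
private theorem kgpar_meas : AEStronglyMeasurable (fun p : P => ((0 : ι → ℂ), p)) ν := by
  haveI : ProperSpace P := FiniteDimensional.proper ℝ P
  haveI : SecondCountableTopology P := secondCountable_of_proper
  exact (by fun_prop : Continuous fun p : P => ((0 : ι → ℂ), p)).aestronglyMeasurable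

omit [Fintype ι] [DecidableEq ι] [NormedAddCommGroup P] [NormedSpace ℝ P] [FiniteDimensional ℝ P] [BorelSpace P] [IsFiniteMeasure ν] in
private theorem kgpar_ae [NormedAddCommGroup P] (hν : ∀ᵐ p ∂ν, p ∈ K) :
    ∀ᵐ p ∂ν, ((0 : ι → ℂ), p) ∈ ({0} : Set (ι → ℂ)) ×ˢ K := by
  filter_upwards [hν] with p hp
  exact ⟨rfl, hp⟩

omit [DecidableEq ι] in
private theorem kgpar_int {G : Type} [NormedAddCommGroup G] [NormedSpace ℝ G] [NormedSpace ℂ G] [IsScalarTower ℝ ℂ G] [CompleteSpace G]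
    (hU : IsOpen U) (hK : IsCompact K) (hν : ∀ᵐ p ∂ν, p ∈ K) {g : (ι → ℂ) × P → G}
    (hg : ContinuousOn g (U ×ˢ Set.univ)) {x : ι → ℂ} (hx : x ∈ U) : Integrable (fun p => g (x, p)) ν := by
  have h := integrable_intTrans (F := G) ν (kgpar_open hU) (kgpar_comp hK) kgpar_add kgpar_meas (kgpar_ae hν)
    (integrable_const (1 : ℂ)) hg (x := (x, (0 : P))) ⟨hx, Set.mem_univ _⟩
  refine h.congr (Filter.Eventually.of_forall fun p => ?_)
  simp

theorem par_integrable (hU : IsOpen U) (hK : IsCompact K) (hν : ∀ᵐ p ∂ν, p ∈ K) (hF : ContDiffOn ℝ ∞ F (U ×ˢ Set.univ))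
    {x : ι → ℂ} (hx : x ∈ U) : Integrable (fun p => F (x, p)) ν :=
  kgpar_int hU hK hν hF.continuousOn hx

theorem par_smooth (hU : IsOpen U) (hK : IsCompact K) (hν : ∀ᵐ p ∂ν, p ∈ K) (hF : ContDiffOn ℝ ∞ F (U ×ˢ Set.univ)) :
    ContDiffOn ℝ ∞ (fun x => ∫ p, F (x, p) ∂ν) U := by
  have h := contDiffOn_intTrans ν (kgpar_open hU) (kgpar_comp hK) kgpar_add kgpar_meas (kgpar_ae hν)
    (integrable_const (1 : ℂ)) hF
  have hi : ContDiffOn ℝ ∞ (fun x : ι → ℂ => (x, (0 : P))) U := (contDiff_id.prodMk contDiff_const).contDiffOn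
  have h2 := h.comp hi (fun x hx => ⟨hx, Set.mem_univ _⟩)
  refine h2.congr fun x _ => ?_
  simp

omit [DecidableEq ι] [MeasurableSpace P] [BorelSpace P] in
private theorem kgpar_slice (hU : IsOpen U) (hF : ContDiffOn ℝ ∞ F (U ×ˢ Set.univ)) {x : ι → ℂ} (hx : x ∈ U) (p : P) (u : ι → ℂ) :
    fderiv ℝ (fun y => F (y, p)) x u = fderiv ℝ F (x, p) (u, 0) := by
  have hm : (x, p) ∈ U ×ˢ (Set.univ : Set P) := ⟨hx, Set.mem_univ _⟩
  have h1 : HasFDerivAt F (fderiv ℝ F (x, p)) (x, p) :=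
    ((hF.contDiffAt ((kgpar_open hU).mem_nhds hm)).differentiableAt (by simp)).hasFDerivAt
  have h2 : HasFDerivAt (fun y : ι → ℂ => (y, p)) (ContinuousLinearMap.inl ℝ (ι → ℂ) P) x := hasFDerivAt_prodMk_left x p
  have h3 := (h1.comp x h2).fderiv
  have h4 : fderiv ℝ (fun y => F (y, p)) x = (fderiv ℝ F (x, p)).comp (ContinuousLinearMap.inl ℝ (ι → ℂ) P) := h3
  rw [h4]
  simp

omit [DecidableEq ι] in
private theorem kgpar_fderiv (hU : IsOpen U) (hK : IsCompact K) (hν : ∀ᵐ p ∂ν, p ∈ K) (hF : ContDiffOn ℝ ∞ F (U ×ˢ Set.univ))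
    {x : ι → ℂ} (hx : x ∈ U) (u : ι → ℂ) :
    fderiv ℝ (fun y => ∫ p, F (y, p) ∂ν) x u = ∫ p, fderiv ℝ F (x, p) (u, 0) ∂ν := by
  have h := hasFDerivAt_intTrans ν (kgpar_open hU) (kgpar_comp hK) kgpar_add kgpar_meas (kgpar_ae hν)
    (integrable_const (1 : ℂ)) hF (x := (x, (0 : P))) ⟨hx, Set.mem_univ _⟩
  have h2 : HasFDerivAt (fun y : ι → ℂ => (y, (0 : P))) (ContinuousLinearMap.inl ℝ (ι → ℂ) P) x := hasFDerivAt_prodMk_left x 0
  have h3 := (h.comp x h2).fderiv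
  have h5 : ((fun x : (ι → ℂ) × P => ∫ p, (1 : ℂ) • F (x + (0, p)) ∂ν) ∘ fun y : ι → ℂ => (y, (0 : P))) =
      fun y => ∫ p, F (y, p) ∂ν := by
    funext y
    simp
  rw [h5] at h3
  have hfd : Integrable (fun p => fderiv ℝ F (x, p)) ν :=
    kgpar_int hU hK hν (hF.continuousOn_fderiv_of_isOpen (kgpar_open hU) (by simp)) hx
  rw [h3]
  simp only [one_smul, Prod.mk_add_mk, add_zero, zero_add, ContinuousLinearMap.comp_apply, ContinuousLinearMap.inl_apply]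
  rw [ContinuousLinearMap.integral_apply hfd]

omit [DecidableEq ι] in
private theorem kgpar_fint (hU : IsOpen U) (hK : IsCompact K) (hν : ∀ᵐ p ∂ν, p ∈ K) (hF : ContDiffOn ℝ ∞ F (U ×ˢ Set.univ))
    {x : ι → ℂ} (hx : x ∈ U) (u : ι → ℂ) : Integrable (fun p => fderiv ℝ F (x, p) (u, 0)) ν := by
  have hfd : Integrable (fun p => fderiv ℝ F (x, p)) ν :=
    kgpar_int hU hK hν (hF.continuousOn_fderiv_of_isOpen (kgpar_open hU) (by simp)) hx
  exact hfd.apply_continuousLinearMap (u, 0)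

theorem par_dz (hU : IsOpen U) (hK : IsCompact K) (hν : ∀ᵐ p ∂ν, p ∈ K) (hF : ContDiffOn ℝ ∞ F (U ×ˢ Set.univ))
    {x : ι → ℂ} (hx : x ∈ U) (i : ι) : dz i (fun y => ∫ p, F (y, p) ∂ν) x = ∫ p, dz i (fun y => F (y, p)) x ∂ν := by
  have h1 := kgpar_fint hU hK hν hF hx (Pi.single i 1)
  have h2 := kgpar_fint hU hK hν hF hx (Pi.single i I)
  have h3 : (fun p => dz i (fun y => F (y, p)) x) = fun p =>
      (1 / 2 : ℂ) * fderiv ℝ F (x, p) (Pi.single i 1, 0) - (I / 2 : ℂ) * fderiv ℝ F (x, p) (Pi.single i I, 0) := by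
    funext p
    unfold dz
    rw [kgpar_slice hU hF hx, kgpar_slice hU hF hx]
    ring
  rw [h3, integral_sub (h1.const_mul _) (h2.const_mul _), integral_const_mul, integral_const_mul]
  unfold dz
  rw [kgpar_fderiv hU hK hν hF hx, kgpar_fderiv hU hK hν hF hx]
  ring

theorem par_dzbar (hU : IsOpen U) (hK : IsCompact K) (hν : ∀ᵐ p ∂ν, p ∈ K) (hF : ContDiffOn ℝ ∞ F (U ×ˢ Set.univ))
    {x : ι → ℂ} (hx : x ∈ U) (i : ι) : dzbar i (fun y => ∫ p, F (y, p) ∂ν) x = ∫ p, dzbar i (fun y => F (y, p)) x ∂ν := by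
  have h1 := kgpar_fint hU hK hν hF hx (Pi.single i 1)
  have h2 := kgpar_fint hU hK hν hF hx (Pi.single i I)
  have h3 : (fun p => dzbar i (fun y => F (y, p)) x) = fun p =>
      (1 / 2 : ℂ) * fderiv ℝ F (x, p) (Pi.single i 1, 0) + (I / 2 : ℂ) * fderiv ℝ F (x, p) (Pi.single i I, 0) := by
    funext p
    unfold dzbar
    rw [kgpar_slice hU hF hx, kgpar_slice hU hF hx]
    ring
  rw [h3, integral_add (h1.const_mul _) (h2.const_mul _), integral_const_mul, integral_const_mul]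
  unfold dzbar
  rw [kgpar_fderiv hU hK hν hF hx, kgpar_fderiv hU hK hν hF hx]
  ring

omit [DecidableEq ι] [MeasurableSpace P] [BorelSpace P] in
private theorem kgpar_joint (hU : IsOpen U) (hF : ContDiffOn ℝ ∞ F (U ×ˢ Set.univ)) (u : ι → ℂ) :
    ContDiffOn ℝ ∞ (fun q : (ι → ℂ) × P => fderiv ℝ F q (u, 0)) (U ×ˢ Set.univ) := by
  have h : ContDiffOn ℝ ∞ (fderiv ℝ F) (U ×ˢ Set.univ) := hF.fderiv_of_isOpen (kgpar_open hU) (by simp)
  exact h.clm_apply contDiffOn_const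

/-- The functions `(x,p) ↦ dz i (F (·,p)) x` are smooth on `U ×ˢ univ`. -/
theorem par_dz_joint (hU : IsOpen U) (hF : ContDiffOn ℝ ∞ F (U ×ˢ Set.univ)) (i : ι) :
    ContDiffOn ℝ ∞ (fun q : (ι → ℂ) × P => dz i (fun y => F (y, q.2)) q.1) (U ×ˢ Set.univ) := by
  have h1 := kgpar_joint hU hF (Pi.single i 1)
  have h2 := kgpar_joint hU hF (Pi.single i I)
  have h3 : ContDiffOn ℝ ∞ (fun q : (ι → ℂ) × P =>
      (fderiv ℝ F q (Pi.single i 1, 0) - I * fderiv ℝ F q (Pi.single i I, 0)) / 2) (U ×ˢ Set.univ) := by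
    simp only [div_eq_mul_inv]
    exact (h1.sub (contDiffOn_const.mul h2)).mul contDiffOn_const
  refine h3.congr ?_
  rintro ⟨x, p⟩ ⟨hx, -⟩
  unfold dz
  rw [kgpar_slice hU hF hx, kgpar_slice hU hF hx]

theorem par_dzbar_joint (hU : IsOpen U) (hF : ContDiffOn ℝ ∞ F (U ×ˢ Set.univ)) (i : ι) :
    ContDiffOn ℝ ∞ (fun q : (ι → ℂ) × P => dzbar i (fun y => F (y, q.2)) q.1) (U ×ˢ Set.univ) := by
  have h1 := kgpar_joint hU hF (Pi.single i 1)
  have h2 := kgpar_joint hU hF (Pi.single i I)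
  have h3 : ContDiffOn ℝ ∞ (fun q : (ι → ℂ) × P =>
      (fderiv ℝ F q (Pi.single i 1, 0) + I * fderiv ℝ F q (Pi.single i I, 0)) / 2) (U ×ˢ Set.univ) := by
    simp only [div_eq_mul_inv]
    exact (h1.add (contDiffOn_const.mul h2)).mul contDiffOn_const
  refine h3.congr ?_
  rintro ⟨x, p⟩ ⟨hx, -⟩
  unfold dzbar
  rw [kgpar_slice hU hF hx, kgpar_slice hU hF hx]

end YT
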